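import Mathlib
import Pool.Agent.V11157.Polyline
import Pool.Agent.V11157.Spiral

/-!
# The square tiling has a spiral marking with `n` arms for every positive `n`

The marking of the unit square consists of `n` parallel segments around each of two opposite corners,
meeting the sides at the points `k / (n + 1)`.  The lattice points with even coordinate sum form a
lattice `ℤ × ℤ` of their own (index `u`), and each unit square joins two neighbours of this lattice; it is
called open when these are consecutive on the square spiral through all points of the lattice.  In the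
open squares the segments surround the odd corners, in the others the even corners.  The segments of a
fixed level then form one curve, which runs along the spiral on both sides.
-/

set_option autoImplicit false

namespace Pool.Agent.Results.MP_ca213f_co.AllArms

open Pool.Agent.V11157

/-- The Euclidean plane. -/
abbrev Plane : Type := EuclideanSpace ℝ (Fin 2)

/-- An arc: a homeomorphic image of the unit interval. -/
def IsArc (a : Set Plane) : Prop := Nonempty (Set.Icc (0 : ℝ) 1 ≃ₜ a)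

/-- An unbounded simple curve: the image of a closed embedding of the line or of a half-line. -/
def IsCurve (Γ : Set Plane) : Prop :=
  (∃ f : ℝ → Plane, Topology.IsClosedEmbedding f ∧ Set.range f = Γ) ∨
  (∃ f : Set.Ici (0 : ℝ) → Plane, Topology.IsClosedEmbedding f ∧ Set.range f = Γ)

/-- The tile number `t` of the tiling by unit squares. -/
def tile (t : ℤ × ℤ) : Set Plane :=
  {z | (t.1 : ℝ) ≤ z 0 ∧ z 0 ≤ (t.1 : ℝ) + 1 ∧ (t.2 : ℝ) ≤ z 1 ∧ z 1 ≤ (t.2 : ℝ) + 1}

/-- `M` is a marking of the prototile `tile (0, 0)`: a finite set of arcs in it. -/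
def IsMarking (M : Set (Set Plane)) : Prop :=
  M.Finite ∧ ∀ a ∈ M, IsArc a ∧ a ⊆ tile (0, 0)

/-- The marking `M` transported by the isometries `σ t` of the prototile onto the tiles makes the
tiling an `n`-armed spiral: the union of the transported arcs is the union of `n` pairwise disjoint
unbounded simple curves. -/
def IsArmedSpiral (n : ℕ) (M : Set (Set Plane)) (σ : ℤ × ℤ → (Plane ≃ᵢ Plane)) : Prop :=
  (∀ t, σ t '' tile (0, 0) = tile t) ∧
  ∃ Γ : Fin n → Set Plane, (∀ k, IsCurve (Γ k)) ∧ (∀ k l, k ≠ l → Disjoint (Γ k) (Γ l)) ∧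
    (⋃ k, Γ k) = ⋃ t, ⋃ a ∈ M, σ t '' a

/-! ### The dynamics on the sides -/

/-- The four directions in the lattice of even points. -/
def δ (d : Fin 4) : ℤ × ℤ :=
  match d with
  | 0 => (1, 0)
  | 1 => (0, 1)
  | 2 => (-1, 0)
  | 3 => (0, -1)

theorem δ_opp (d : Fin 4) : δ d + δ (d + 2) = 0 := by
  fin_cases d <;> rfl

theorem δ_inj {d d' : Fin 4} (h : δ d = δ d') : d = d' := by
  fin_cases d <;> fin_cases d' <;> simp [δ] at h ⊢

/-- The square between the directions `d` and `d + 1` at `u` is open. -/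
def Open (u : ℤ × ℤ) (d : Fin 4) : Prop :=
  Spiral.next u = u + δ d ∨ Spiral.next (u + δ d) = u

theorem open_symm (u : ℤ × ℤ) (d : Fin 4) : Open (u + δ d) (d + 2) ↔ Open u d := by
  unfold Open
  have e : u + δ d + δ (d + 2) = u := by rw [add_assoc, δ_opp, add_zero]
  rw [e]
  exact or_comm

open Classical in
/-- The next side crossed by the curve. -/
noncomputable def Sf (x : (ℤ × ℤ) × Fin 4) : (ℤ × ℤ) × Fin 4 :=
  if Open x.1 x.2 then (x.1 + δ x.2, x.2 + 3) else (x.1, x.2 + 1)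

open Classical in
/-- The previous side crossed by the curve. -/
noncomputable def Tf (x : (ℤ × ℤ) × Fin 4) : (ℤ × ℤ) × Fin 4 :=
  if Open x.1 (x.2 + 3) then (x.1 + δ (x.2 + 3), x.2 + 1) else (x.1, x.2 + 3)

theorem Tf_Sf (x : (ℤ × ℤ) × Fin 4) : Tf (Sf x) = x := by
  obtain ⟨u, d⟩ := x
  have e1 : d + 3 + 3 = d + 2 := by rw [add_assoc]; rfl
  have e2 : d + 3 + 1 = d := by rw [add_assoc]; exact add_zero d
  have e3 : d + 1 + 3 = d := by rw [add_assoc]; exact add_zero d
  by_cases h : Open u d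
  · have h2 : Open (u + δ d) (d + 3 + 3) := by rw [e1]; exact (open_symm u d).2 h
    rw [Sf, if_pos h, Tf, if_pos h2]
    simp only [e1, e2]
    rw [add_assoc, δ_opp, add_zero]
  · have h2 : ¬ Open u (d + 1 + 3) := by rw [e3]; exact h
    rw [Sf, if_neg h, Tf, if_neg h2]
    simp only [e3]

theorem Sf_Tf (x : (ℤ × ℤ) × Fin 4) : Sf (Tf x) = x := by
  obtain ⟨u, d⟩ := x
  have e1 : d + 3 + 2 = d + 1 := by rw [add_assoc]; rfl
  have e2 : d + 3 + 1 = d := by rw [add_assoc]; exact add_zero d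
  have e3 : d + 1 + 3 = d := by rw [add_assoc]; exact add_zero d
  by_cases h : Open u (d + 3)
  · have h2 : Open (u + δ (d + 3)) (d + 1) := by rw [← e1]; exact (open_symm u (d + 3)).2 h
    rw [Tf, if_pos h, Sf, if_pos h2]
    simp only [e3]
    rw [add_assoc, ← e1, δ_opp, add_zero]
  · rw [Tf, if_neg h, Sf, if_neg h]
    simp only [e2]

/-- The permutation of the sides. -/
noncomputable def S : Equiv.Perm ((ℤ × ℤ) × Fin 4) := ⟨Sf, Tf, Tf_Sf, Sf_Tf⟩

theorem S_open {u : ℤ × ℤ} {d : Fin 4} (h : Open u d) : S (u, d) = (u + δ d, d + 3) := if_pos h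
theorem S_closed {u : ℤ × ℤ} {d : Fin 4} (h : ¬ Open u d) : S (u, d) = (u, d + 1) := if_neg h

theorem same_closed {u : ℤ × ℤ} {d : Fin 4} (h : ¬ Open u d) :
    Equiv.Perm.SameCycle S (u, d) (u, d + 1) :=
  ⟨1, by rw [zpow_one, S_closed h]⟩

theorem same_open {u : ℤ × ℤ} {d : Fin 4} (h : Open u d) :
    Equiv.Perm.SameCycle S (u, d) (u + δ d, d + 3) :=
  ⟨1, by rw [zpow_one, S_open h]⟩

theorem next_inj {u w : ℤ × ℤ} (h : Spiral.next u = Spiral.next w) : u = w := by
  obtain ⟨n, rfl⟩ := Spiral.v_surjective u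
  obtain ⟨m, rfl⟩ := Spiral.v_surjective w
  have h' : Spiral.v (n + 1) = Spiral.v (m + 1) := h
  have := Spiral.v_injective h'
  have : n = m := by omega
  rw [this]

theorem next_δ (u : ℤ × ℤ) : ∃ d, Spiral.next u = u + δ d := by
  rcases Spiral.cases u with h | h | h | h
  · exact ⟨0, by rw [Spiral.next_bot h]; simp [δ, Prod.ext_iff]⟩
  · exact ⟨1, by rw [Spiral.next_rig h]; simp [δ, Prod.ext_iff]⟩
  · exact ⟨2, by rw [Spiral.next_top h]; simp [δ, Prod.ext_iff, sub_eq_add_neg]⟩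
  · exact ⟨3, by rw [Spiral.next_lef h]; simp [δ, Prod.ext_iff, sub_eq_add_neg]⟩

theorem one_orbit (n : ℕ) : ∀ d, Equiv.Perm.SameCycle S (Spiral.v n, d) ((0, 0), 0) := by
  induction n with
  | zero =>
    have hb : Spiral.Bot (0, 0) := by unfold Spiral.Bot; simp
    have hcl : ∀ d : Fin 4, d ≠ 0 → ¬ Open (0, 0) d := by
      intro d hd h
      rcases h with h | h
      · rw [Spiral.next_bot hb] at h
        have h' : ((0 : ℤ), (0 : ℤ)) + δ 0 = (0, 0) + δ d := h
        exact hd (δ_inj (add_left_cancel h')).symm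
      · have h1 := Spiral.rank_next ((0, 0) + δ d)
        rw [h] at h1
        have h2 := Spiral.rank_nonneg ((0, 0) + δ d)
        have h3 : Spiral.rank (0, 0) = 0 := Spiral.rank_v 0
        rw [h3] at h1
        omega
    have c1 := same_closed (hcl 1 (by decide))
    have c2 := same_closed (hcl 2 (by decide))
    have c3 := same_closed (hcl 3 (by decide))
    change ∀ d, Equiv.Perm.SameCycle S ((0, 0), d) ((0, 0), 0)
    intro d
    fin_cases d
    · exact Equiv.Perm.SameCycle.refl _ _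
    · exact c1.trans (c2.trans c3)
    · exact c2.trans c3
    · exact c3
  | succ n ih =>
    set w := Spiral.v n with hw
    set u := Spiral.v (n + 1) with hu
    have hnext : Spiral.next w = u := rfl
    obtain ⟨q', hq'⟩ := next_δ w
    rw [hnext] at hq'
    -- direction from `u` back to `w`
    obtain ⟨q, hq⟩ : ∃ q, q' = q + 2 := ⟨q' + 2, by rw [add_assoc]; exact (add_zero q').symm⟩
    have hqw : u + δ q = w := by
      rw [hq', hq, add_assoc, add_comm (δ (q + 2)), δ_opp, add_zero]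
    have hopen : Open u q := Or.inr (by rw [hqw, hnext])
    obtain ⟨p, hp⟩ := next_δ u
    have hcl : ∀ d, d ≠ p → d ≠ q → ¬ Open u d := by
      intro d h1 h2 h
      rcases h with h | h
      · rw [hp] at h
        exact h1 (δ_inj (add_left_cancel h)).symm
      · have h3 := next_inj (h.trans hnext.symm)
        rw [← hqw] at h3
        exact h2 (δ_inj (add_left_cancel h3))
    have e4 : q + 3 + 1 = q := by rw [add_assoc]; exact add_zero q
    have a0 : Equiv.Perm.SameCycle S (u, q) ((0, 0), 0) := by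
      have h := same_open hopen
      rw [hqw] at h
      exact h.trans (ih _)
    have a1 : Equiv.Perm.SameCycle S (u, q + 1) ((0, 0), 0) := by
      have h2 : Open w (q + 2) := by
        rw [← hqw]
        exact (open_symm u q).2 hopen
      have h := same_open h2
      have e5 : w + δ (q + 2) = u := by rw [← hqw, add_assoc, δ_opp, add_zero]
      have e6 : q + 2 + 3 = q + 1 := by rw [add_assoc]; rfl
      rw [e5, e6] at h
      exact h.symm.trans (ih _)
    have n1 : q + 1 ≠ q := by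
      intro h; have := add_left_cancel (h.trans (add_zero q).symm); exact absurd this (by decide)
    have n2 : q + 2 ≠ q := by
      intro h; have := add_left_cancel (h.trans (add_zero q).symm); exact absurd this (by decide)
    have n3 : q + 3 ≠ q := by
      intro h; have := add_left_cancel (h.trans (add_zero q).symm); exact absurd this (by decide)
    have n12 : q + 1 ≠ q + 2 := fun h => absurd (add_left_cancel h) (by decide)
    have n13 : q + 1 ≠ q + 3 := fun h => absurd (add_left_cancel h) (by decide)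
    have n23 : q + 2 ≠ q + 3 := fun h => absurd (add_left_cancel h) (by decide)
    have e12 : q + 1 + 1 = q + 2 := by rw [add_assoc]; rfl
    have e23 : q + 2 + 1 = q + 3 := by rw [add_assoc]; rfl
    have a23 : Equiv.Perm.SameCycle S (u, q + 2) ((0, 0), 0) ∧
        Equiv.Perm.SameCycle S (u, q + 3) ((0, 0), 0) := by
      by_cases hp1 : p = q + 1
      · have k2 := same_closed (hcl (q + 2) (by rw [hp1]; exact n12.symm) n2)
        have k3 := same_closed (hcl (q + 3) (by rw [hp1]; exact n13.symm) n3)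
        rw [e23] at k2
        rw [e4] at k3
        exact ⟨k2.trans (k3.trans a0), k3.trans a0⟩
      · have k1 := same_closed (hcl (q + 1) (fun h => hp1 h.symm) n1)
        rw [e12] at k1
        have b2 := k1.symm.trans a1
        by_cases hp3 : p = q + 3
        · have k2 := same_closed (hcl (q + 2) (by rw [hp3]; exact n23) n2)
          rw [e23] at k2
          exact ⟨b2, k2.symm.trans b2⟩
        · have k3 := same_closed (hcl (q + 3) (fun h => hp3 h.symm) n3)
          rw [e4] at k3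
          exact ⟨b2, k3.trans a0⟩
    intro d
    have hd : d = q ∨ d = q + 1 ∨ d = q + 2 ∨ d = q + 3 := by
      have : ∀ d q : Fin 4, d = q ∨ d = q + 1 ∨ d = q + 2 ∨ d = q + 3 := by decide
      exact this d q
    rcases hd with rfl | rfl | rfl | rfl
    · exact a0
    · exact a1
    · exact a23.1
    · exact a23.2

theorem same_all (x y : (ℤ × ℤ) × Fin 4) : Equiv.Perm.SameCycle S x y := by
  obtain ⟨n, hn⟩ := Spiral.v_surjective x.1
  obtain ⟨m, hm⟩ := Spiral.v_surjective y.1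
  have h1 := one_orbit n x.2
  have h2 := one_orbit m y.2
  rw [hn] at h1
  rw [hm] at h2
  exact h1.trans h2.symm

/-- The sides in the order in which the curve crosses them. -/
noncomputable def ε (k : ℤ) : (ℤ × ℤ) × Fin 4 := (S ^ k) ((0, 0), 0)

theorem ε_succ (k : ℤ) : ε (k + 1) = S (ε k) := by
  rw [ε, ε, add_comm, zpow_add, zpow_one, Equiv.Perm.mul_apply]

theorem ε_surj (x : (ℤ × ℤ) × Fin 4) : ∃ k, ε k = x := same_all ((0, 0), 0) x

theorem ε_inj : Function.Injective ε := by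
  intro a b hab
  by_contra hne
  -- the orbit would be finite
  have key : ∀ m : ℤ, m ≠ 0 → (S ^ m) ((0, 0), 0) ≠ ((0, 0), 0) := by
    intro m hm h
    have hfin : (Set.range ε).Finite := by
      have hper : ∀ k : ℤ, ε k = ε (k % m) := by
        intro k
        have e : k = k % m + m * (k / m) := (Int.emod_add_mul_ediv k m).symm
        have h2 : (S ^ (m * (k / m))) ((0, 0), 0) = ((0, 0), 0) := by
          rw [zpow_mul]
          exact Equiv.Perm.zpow_apply_eq_self_of_apply_eq_self h _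
        conv_lhs => rw [e]
        rw [ε, ε, zpow_add, Equiv.Perm.mul_apply, h2]
      apply ((Set.finite_Ico 0 |m|).image ε).subset
      rintro _ ⟨k, rfl⟩
      exact ⟨k % m, ⟨Int.emod_nonneg k hm, Int.emod_lt_abs k hm⟩, (hper k).symm⟩
    have huniv : Set.range ε = Set.univ := by
      rw [Set.eq_univ_iff_forall]
      intro x
      exact ε_surj x
    rw [huniv] at hfin
    have : Infinite ((ℤ × ℤ) × Fin 4) := inferInstance
    exact Set.infinite_univ hfin
  apply key (a - b) (sub_ne_zero.2 hne)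
  rw [zpow_sub, Equiv.Perm.mul_apply]
  have h1 : (S ^ a) ((0, 0), 0) = (S ^ b) ((0, 0), 0) := hab
  have h2 : Commute (S ^ a) (S ^ b)⁻¹ := ((Commute.refl S).zpow_zpow a b).inv_right
  rw [← Equiv.Perm.mul_apply, h2.eq, Equiv.Perm.mul_apply, h1]
  exact (S ^ b).symm_apply_apply _

/-! ### The curves -/

/-- The point with coordinates `(u, v)`. -/
noncomputable def pt (u v : ℝ) : Plane := !₂[u, v]

@[simp] theorem pt_zero (u v : ℝ) : pt u v 0 = u := by simp [pt]
@[simp] theorem pt_one (u v : ℝ) : pt u v 1 = v := by simp [pt]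

theorem ext2 {z w : Plane} (h0 : z 0 = w 0) (h1 : z 1 = w 1) : z = w := by
  ext i
  fin_cases i
  · exact h0
  · exact h1

theorem dist_sq (z w : Plane) : dist z w ^ 2 = (z 0 - w 0) ^ 2 + (z 1 - w 1) ^ 2 := by
  rw [EuclideanSpace.dist_eq, Real.sq_sqrt (by positivity)]
  simp [Real.dist_eq]

/-- The crossing point of level `r` with the side `(u, d)`. -/
noncomputable def P (r : ℝ) (x : (ℤ × ℤ) × Fin 4) : Plane :=
  match x with
  | ((a, b), 0) => pt (a - b + r) (a + b)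
  | ((a, b), 1) => pt (a - b) (a + b + r)
  | ((a, b), 2) => pt (a - b - r) (a + b)
  | ((a, b), 3) => pt (a - b) (a + b - r)

/-- A point of the step starting at the side `x`. -/
noncomputable def W (r : ℝ) (x : (ℤ × ℤ) × Fin 4) (τ : ℝ) : Plane :=
  P r x + τ • (P r (S x) - P r x)

/-- The step starting at the side `x` in the local coordinates `X`, `Y` of the tile `(i, j)` in
which it lies. -/
def Form (r τ : ℝ) (x : (ℤ × ℤ) × Fin 4) (i j : ℤ) (X Y : ℝ) : Prop :=
  ∃ a b : ℤ,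
    (i = a - b ∧ j = a + b ∧ ¬ Open (a, b) 0 ∧ x = ((a, b), 0) ∧ X = r - r * τ ∧ Y = r * τ) ∨
    (i = a - b ∧ j = a + b ∧ ¬ Open (a, b) 0 ∧ x = ((a + 1, b), 2) ∧
      X = 1 - r + r * τ ∧ Y = 1 - r * τ) ∨
    (i = a - b ∧ j = a + b ∧ Open (a, b) 0 ∧ x = ((a, b), 0) ∧
      X = r + (1 - r) * τ ∧ Y = (1 - r) * τ) ∨
    (i = a - b ∧ j = a + b ∧ Open (a, b) 0 ∧ x = ((a + 1, b), 2) ∧
      X = 1 - r - (1 - r) * τ ∧ Y = 1 - (1 - r) * τ) ∨
    (i = a - b - 1 ∧ j = a + b ∧ ¬ Open (a, b) 1 ∧ x = ((a, b), 1) ∧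
      X = 1 - r * τ ∧ Y = r - r * τ) ∨
    (i = a - b - 1 ∧ j = a + b ∧ ¬ Open (a, b) 1 ∧ x = ((a, b + 1), 3) ∧
      X = r * τ ∧ Y = 1 - r + r * τ) ∨
    (i = a - b - 1 ∧ j = a + b ∧ Open (a, b) 1 ∧ x = ((a, b), 1) ∧
      X = 1 - (1 - r) * τ ∧ Y = r + (1 - r) * τ) ∨
    (i = a - b - 1 ∧ j = a + b ∧ Open (a, b) 1 ∧ x = ((a, b + 1), 3) ∧
      X = (1 - r) * τ ∧ Y = 1 - r - (1 - r) * τ)

theorem open_02 (a b : ℤ) : Open (a + 1, b) 2 ↔ Open (a, b) 0 := by
  have h := open_symm (a, b) 0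
  have e : ((a, b) : ℤ × ℤ) + δ 0 = (a + 1, b) := by simp [δ]
  rw [e] at h
  exact h

theorem open_13 (a b : ℤ) : Open (a, b + 1) 3 ↔ Open (a, b) 1 := by
  have h := open_symm (a, b) 1
  have e : ((a, b) : ℤ × ℤ) + δ 1 = (a, b + 1) := by simp [δ]
  rw [e] at h
  exact h

theorem W_form {r τ : ℝ} {x : (ℤ × ℤ) × Fin 4} {i j : ℤ} {X Y : ℝ} (h : Form r τ x i j X Y) :
    W r x τ = pt (i + X) (j + Y) := by
  obtain ⟨a, b, h⟩ := h
  rcases h with ⟨rfl, rfl, ho, rfl, rfl, rfl⟩ | ⟨rfl, rfl, ho, rfl, rfl, rfl⟩ |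
    ⟨rfl, rfl, ho, rfl, rfl, rfl⟩ | ⟨rfl, rfl, ho, rfl, rfl, rfl⟩ | ⟨rfl, rfl, ho, rfl, rfl, rfl⟩ |
    ⟨rfl, rfl, ho, rfl, rfl, rfl⟩ | ⟨rfl, rfl, ho, rfl, rfl, rfl⟩ | ⟨rfl, rfl, ho, rfl, rfl, rfl⟩
  · rw [W, S_closed ho]
    change P r ((a, b), 0) + τ • (P r ((a, b), 1) - P r ((a, b), 0)) = _
    apply ext2
    · simp [P]; ring
    · simp [P]; ring
  · rw [W, S_closed (fun h => ho ((open_02 a b).1 h))]
    change P r ((a + 1, b), 2) + τ • (P r ((a + 1, b), 3) - P r ((a + 1, b), 2)) = _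
    apply ext2
    · simp [P]; ring
    · simp [P]; ring
  · rw [W, S_open ho]
    change P r ((a, b), 0) + τ • (P r ((a + 1, b + 0), 3) - P r ((a, b), 0)) = _
    apply ext2
    · simp [P]; ring
    · simp [P]; ring
  · rw [W, S_open ((open_02 a b).2 ho)]
    change P r ((a + 1, b), 2) + τ • (P r ((a + 1 + -1, b + 0), 1) - P r ((a + 1, b), 2)) = _
    apply ext2
    · simp [P]; ring
    · simp [P]; ring
  · rw [W, S_closed ho]
    change P r ((a, b), 1) + τ • (P r ((a, b), 2) - P r ((a, b), 1)) = _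
    apply ext2
    · simp [P]; ring
    · simp [P]; ring
  · rw [W, S_closed (fun h => ho ((open_13 a b).1 h))]
    change P r ((a, b + 1), 3) + τ • (P r ((a, b + 1), 0) - P r ((a, b + 1), 3)) = _
    apply ext2
    · simp [P]; ring
    · simp [P]; ring
  · rw [W, S_open ho]
    change P r ((a, b), 1) + τ • (P r ((a + 0, b + 1), 0) - P r ((a, b), 1)) = _
    apply ext2
    · simp [P]; ring
    · simp [P]; ring
  · rw [W, S_open ((open_13 a b).2 ho)]
    change P r ((a, b + 1), 3) + τ • (P r ((a + 0, b + 1 + -1), 2) - P r ((a, b + 1), 3)) = _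
    apply ext2
    · simp [P]; ring
    · simp [P]; ring

theorem form_exists (r τ : ℝ) (x : (ℤ × ℤ) × Fin 4) : ∃ i j X Y, Form r τ x i j X Y := by
  obtain ⟨⟨a, b⟩, d⟩ := x
  have hd : d = 0 ∨ d = 1 ∨ d = 2 ∨ d = 3 := by
    fin_cases d <;> simp
  rcases hd with rfl | rfl | rfl | rfl
  · by_cases h : Open (a, b) 0
    · exact ⟨_, _, _, _, a, b, Or.inr (Or.inr (Or.inl ⟨rfl, rfl, h, rfl, rfl, rfl⟩))⟩
    · exact ⟨_, _, _, _, a, b, Or.inl ⟨rfl, rfl, h, rfl, rfl, rfl⟩⟩
  · by_cases h : Open (a, b) 1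
    · exact ⟨_, _, _, _, a, b, Or.inr (Or.inr (Or.inr (Or.inr (Or.inr (Or.inr
        (Or.inl ⟨rfl, rfl, h, rfl, rfl, rfl⟩))))))⟩
    · exact ⟨_, _, _, _, a, b, Or.inr (Or.inr (Or.inr (Or.inr
        (Or.inl ⟨rfl, rfl, h, rfl, rfl, rfl⟩))))⟩
  · obtain ⟨c, rfl⟩ : ∃ c, a = c + 1 := ⟨a - 1, by ring⟩
    by_cases h : Open (c, b) 0
    · exact ⟨_, _, _, _, c, b, Or.inr (Or.inr (Or.inr (Or.inl ⟨rfl, rfl, h, rfl, rfl, rfl⟩)))⟩
    · exact ⟨_, _, _, _, c, b, Or.inr (Or.inl ⟨rfl, rfl, h, rfl, rfl, rfl⟩)⟩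
  · obtain ⟨c, rfl⟩ : ∃ c, b = c + 1 := ⟨b - 1, by ring⟩
    by_cases h : Open (a, c) 1
    · exact ⟨_, _, _, _, a, c, Or.inr (Or.inr (Or.inr (Or.inr (Or.inr (Or.inr
        (Or.inr ⟨rfl, rfl, h, rfl, rfl, rfl⟩))))))⟩
    · exact ⟨_, _, _, _, a, c, Or.inr (Or.inr (Or.inr (Or.inr (Or.inr
        (Or.inl ⟨rfl, rfl, h, rfl, rfl, rfl⟩)))))⟩

/-- The local coordinates determine the level, the side and the parameter. -/
theorem form_unique {r r' τ τ' : ℝ} {x x' : (ℤ × ℤ) × Fin 4} {i j : ℤ} {X Y : ℝ}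
    (hr0 : 0 < r) (hr1 : r < 1) (hr0' : 0 < r') (hr1' : r' < 1)
    (h : Form r τ x i j X Y) (h' : Form r' τ' x' i j X Y) : r = r' ∧ x = x' ∧ τ = τ' := by
  obtain ⟨a, b, h⟩ := h
  obtain ⟨a', b', h'⟩ := h'
  have cl : r = r' → r * τ = r' * τ' → τ = τ' := by
    rintro rfl h
    exact mul_left_cancel₀ hr0.ne' h
  have cl' : r = r' → (1 - r) * τ = (1 - r') * τ' → τ = τ' := by
    rintro rfl h
    have : (1 - r) ≠ 0 := by linarith
    exact mul_left_cancel₀ this h
  rcases h with ⟨i1, j1, ho, rfl, X1, Y1⟩ | ⟨i1, j1, ho, rfl, X1, Y1⟩ |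
    ⟨i1, j1, ho, rfl, X1, Y1⟩ | ⟨i1, j1, ho, rfl, X1, Y1⟩ | ⟨i1, j1, ho, rfl, X1, Y1⟩ |
    ⟨i1, j1, ho, rfl, X1, Y1⟩ | ⟨i1, j1, ho, rfl, X1, Y1⟩ | ⟨i1, j1, ho, rfl, X1, Y1⟩ <;>
  rcases h' with ⟨i2, j2, ho', rfl, X2, Y2⟩ | ⟨i2, j2, ho', rfl, X2, Y2⟩ |
    ⟨i2, j2, ho', rfl, X2, Y2⟩ | ⟨i2, j2, ho', rfl, X2, Y2⟩ | ⟨i2, j2, ho', rfl, X2, Y2⟩ |
    ⟨i2, j2, ho', rfl, X2, Y2⟩ | ⟨i2, j2, ho', rfl, X2, Y2⟩ | ⟨i2, j2, ho', rfl, X2, Y2⟩ <;>
  first
  | (exfalso; omega)
  | (obtain rfl : a = a' := by omega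
     obtain rfl : b = b' := by omega
     first
     | exact absurd ho' ho
     | exact absurd ho ho'
     | (exfalso; linarith)
     | (have e1 : r = r' := by linarith
        refine ⟨e1, rfl, ?_⟩
        first
        | exact cl e1 (by linarith)
        | exact cl' e1 (by linarith)))

theorem P_inj {r r' : ℝ} {x x' : (ℤ × ℤ) × Fin 4} (hr0 : 0 < r) (hr1 : r < 1) (hr0' : 0 < r')
    (hr1' : r' < 1) (h : P r x = P r' x') : r = r' ∧ x = x' := by
  obtain ⟨⟨a, b⟩, d⟩ := x
  obtain ⟨⟨a', b'⟩, d'⟩ := x'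
  have e0 := congrArg (fun z : Plane => z 0) h
  have e1 := congrArg (fun z : Plane => z 1) h
  have key : ∀ (m n : ℤ) (s t : ℝ), -1 < s - t → s - t < 1 → (m : ℝ) + s = n + t → m = n := by
    intro m n s t h1 h2 h3
    have h4 : (m : ℝ) < n + 1 := by linarith
    have h5 : (n : ℝ) < m + 1 := by linarith
    have h4' : m < n + 1 := by exact_mod_cast h4
    have h5' : n < m + 1 := by exact_mod_cast h5
    omega
  fin_cases d <;> fin_cases d' <;> simp [P] at e0 e1
  · have i1 := key (a - b) (a' - b') r r' (by linarith) (by linarith) (by push_cast; linarith)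
    have i2 : a + b = a' + b' := by exact_mod_cast e1
    obtain rfl : a = a' := by omega
    obtain rfl : b = b' := by omega
    exact ⟨by linarith, rfl⟩
  · exfalso
    have i2 := key (a' + b') (a + b) r' 0 (by linarith) (by linarith) (by push_cast; linarith)
    have i2' : (a' : ℝ) + b' = a + b := by exact_mod_cast i2
    linarith
  · exfalso
    have i2 : a + b = a' + b' := by exact_mod_cast e1
    have i3 : ((a - b : ℤ) : ℝ) < (a' - b' : ℤ) := by push_cast; linarith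
    have i4 : ((a' - b' : ℤ) : ℝ) < (a - b : ℤ) + 2 := by push_cast; linarith
    have i3' : a - b < a' - b' := by exact_mod_cast i3
    have i4' : a' - b' < a - b + 2 := by exact_mod_cast i4
    omega
  · exfalso
    have i2 := key (a' + b') (a + b) (-r') 0 (by linarith) (by linarith) (by push_cast; linarith)
    have i2' : (a' : ℝ) + b' = a + b := by exact_mod_cast i2
    linarith
  · exfalso
    have i2 := key (a + b) (a' + b') r 0 (by linarith) (by linarith) (by push_cast; linarith)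
    have i2' : (a : ℝ) + b = a' + b' := by exact_mod_cast i2
    linarith
  · have i1 := key (a + b) (a' + b') r r' (by linarith) (by linarith) (by push_cast; linarith)
    have i2 : a - b = a' - b' := by exact_mod_cast e0
    obtain rfl : a = a' := by omega
    obtain rfl : b = b' := by omega
    exact ⟨by linarith, rfl⟩
  · exfalso
    have i2 := key (a + b) (a' + b') r 0 (by linarith) (by linarith) (by push_cast; linarith)
    have i2' : (a : ℝ) + b = a' + b' := by exact_mod_cast i2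
    linarith
  · exfalso
    have i2 : a - b = a' - b' := by exact_mod_cast e0
    have i3 : ((a + b : ℤ) : ℝ) < (a' + b' : ℤ) := by push_cast; linarith
    have i4 : ((a' + b' : ℤ) : ℝ) < (a + b : ℤ) + 2 := by push_cast; linarith
    have i3' : a + b < a' + b' := by exact_mod_cast i3
    have i4' : a' + b' < a + b + 2 := by exact_mod_cast i4
    omega
  · exfalso
    have i2 : a + b = a' + b' := by exact_mod_cast e1
    have i3 : ((a' - b' : ℤ) : ℝ) < (a - b : ℤ) := by push_cast; linarith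
    have i4 : ((a - b : ℤ) : ℝ) < (a' - b' : ℤ) + 2 := by push_cast; linarith
    have i3' : a' - b' < a - b := by exact_mod_cast i3
    have i4' : a - b < a' - b' + 2 := by exact_mod_cast i4
    omega
  · exfalso
    have i2 := key (a' + b') (a + b) r' 0 (by linarith) (by linarith) (by push_cast; linarith)
    have i2' : (a' : ℝ) + b' = a + b := by exact_mod_cast i2
    linarith
  · have i1 := key (a - b) (a' - b') (-r) (-r') (by linarith) (by linarith)
      (by push_cast; linarith)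
    have i2 : a + b = a' + b' := by exact_mod_cast e1
    obtain rfl : a = a' := by omega
    obtain rfl : b = b' := by omega
    exact ⟨by linarith, rfl⟩
  · exfalso
    have i2 := key (a' + b') (a + b) (-r') 0 (by linarith) (by linarith) (by push_cast; linarith)
    have i2' : (a' : ℝ) + b' = a + b := by exact_mod_cast i2
    linarith
  · exfalso
    have i2 := key (a + b) (a' + b') (-r) 0 (by linarith) (by linarith) (by push_cast; linarith)
    have i2' : (a : ℝ) + b = a' + b' := by exact_mod_cast i2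
    linarith
  · exfalso
    have i2 : a - b = a' - b' := by exact_mod_cast e0
    have i3 : ((a' + b' : ℤ) : ℝ) < (a + b : ℤ) := by push_cast; linarith
    have i4 : ((a + b : ℤ) : ℝ) < (a' + b' : ℤ) + 2 := by push_cast; linarith
    have i3' : a' + b' < a + b := by exact_mod_cast i3
    have i4' : a + b < a' + b' + 2 := by exact_mod_cast i4
    omega
  · exfalso
    have i2 := key (a + b) (a' + b') (-r) 0 (by linarith) (by linarith) (by push_cast; linarith)
    have i2' : (a : ℝ) + b = a' + b' := by exact_mod_cast i2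
    linarith
  · have i1 := key (a + b) (a' + b') (-r) (-r') (by linarith) (by linarith)
      (by push_cast; linarith)
    have i2 : a - b = a' - b' := by exact_mod_cast e0
    obtain rfl : a = a' := by omega
    obtain rfl : b = b' := by omega
    exact ⟨by linarith, rfl⟩

theorem form_bounds {r τ : ℝ} {x : (ℤ × ℤ) × Fin 4} {i j : ℤ} {X Y : ℝ} (hr0 : 0 < r) (hr1 : r < 1)
    (ht0 : 0 < τ) (ht1 : τ < 1) (h : Form r τ x i j X Y) : 0 < X ∧ X < 1 ∧ 0 < Y ∧ Y < 1 := by
  have a0 : 0 < r * τ := mul_pos hr0 ht0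
  have a1 : r * τ < r := by nlinarith
  have b0 : 0 < (1 - r) * τ := mul_pos (by linarith) ht0
  have b1 : (1 - r) * τ < 1 - r := by nlinarith
  obtain ⟨a, b, h⟩ := h
  rcases h with ⟨-, -, -, -, X1, Y1⟩ | ⟨-, -, -, -, X1, Y1⟩ | ⟨-, -, -, -, X1, Y1⟩ |
    ⟨-, -, -, -, X1, Y1⟩ | ⟨-, -, -, -, X1, Y1⟩ | ⟨-, -, -, -, X1, Y1⟩ | ⟨-, -, -, -, X1, Y1⟩ |
    ⟨-, -, -, -, X1, Y1⟩ <;> refine ⟨?_, ?_, ?_, ?_⟩ <;> linarith

theorem P_int (r : ℝ) (x : (ℤ × ℤ) × Fin 4) : ∃ m : ℤ, (P r x) 0 = m ∨ (P r x) 1 = m := by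
  obtain ⟨⟨a, b⟩, d⟩ := x
  fin_cases d
  · exact ⟨a + b, Or.inr (by simp [P])⟩
  · exact ⟨a - b, Or.inl (by simp [P])⟩
  · exact ⟨a + b, Or.inr (by simp [P])⟩
  · exact ⟨a - b, Or.inl (by simp [P])⟩

theorem W_zero (r : ℝ) (x : (ℤ × ℤ) × Fin 4) : W r x 0 = P r x := by simp [W]

theorem not_int {r τ : ℝ} {x : (ℤ × ℤ) × Fin 4} (hr0 : 0 < r) (hr1 : r < 1)
    (ht0 : 0 < τ) (ht1 : τ < 1) (m : ℤ) : (W r x τ) 0 ≠ m ∧ (W r x τ) 1 ≠ m := by
  obtain ⟨i, j, X, Y, h⟩ := form_exists r τ x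
  obtain ⟨a1, a2, a3, a4⟩ := form_bounds hr0 hr1 ht0 ht1 h
  rw [W_form h, pt_zero, pt_one]
  constructor
  · intro e
    have h1 : (i : ℝ) < m := by linarith
    have h2 : (m : ℝ) < i + 1 := by linarith
    have h1' : i < m := by exact_mod_cast h1
    have h2' : m < i + 1 := by exact_mod_cast h2
    omega
  · intro e
    have h1 : (j : ℝ) < m := by linarith
    have h2 : (m : ℝ) < j + 1 := by linarith
    have h1' : j < m := by exact_mod_cast h1
    have h2' : m < j + 1 := by exact_mod_cast h2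
    omega

theorem W_inj {r r' τ τ' : ℝ} {x x' : (ℤ × ℤ) × Fin 4} (hr0 : 0 < r) (hr1 : r < 1)
    (hr0' : 0 < r') (hr1' : r' < 1) (ht0 : 0 ≤ τ) (ht1 : τ < 1) (ht0' : 0 ≤ τ') (ht1' : τ' < 1)
    (h : W r x τ = W r' x' τ') : r = r' ∧ x = x' ∧ τ = τ' := by
  rcases ht0.eq_or_lt with rfl | hp <;> rcases ht0'.eq_or_lt with rfl | hp'
  · rw [W_zero, W_zero] at h
    obtain ⟨h1, h2⟩ := P_inj hr0 hr1 hr0' hr1' h
    exact ⟨h1, h2, rfl⟩
  · exfalso
    rw [W_zero] at h
    obtain ⟨m, hm⟩ := P_int r x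
    rw [h] at hm
    have := not_int (x := x') hr0' hr1' hp' ht1' m
    tauto
  · exfalso
    rw [W_zero] at h
    obtain ⟨m, hm⟩ := P_int r' x'
    rw [← h] at hm
    have := not_int (x := x) hr0 hr1 hp ht1 m
    tauto
  · obtain ⟨i, j, X, Y, hf⟩ := form_exists r τ x
    obtain ⟨i', j', X', Y', hf'⟩ := form_exists r' τ' x'
    obtain ⟨a1, a2, a3, a4⟩ := form_bounds hr0 hr1 hp ht1 hf
    obtain ⟨b1, b2, b3, b4⟩ := form_bounds hr0' hr1' hp' ht1' hf'
    rw [W_form hf, W_form hf'] at h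
    have e0 := congrArg (fun z : Plane => z 0) h
    have e1 := congrArg (fun z : Plane => z 1) h
    simp only [pt_zero, pt_one] at e0 e1
    have c1 : (i : ℝ) < i' + 1 := by linarith
    have c2 : (i' : ℝ) < i + 1 := by linarith
    have c3 : (j : ℝ) < j' + 1 := by linarith
    have c4 : (j' : ℝ) < j + 1 := by linarith
    have c1' : i < i' + 1 := by exact_mod_cast c1
    have c2' : i' < i + 1 := by exact_mod_cast c2
    have c3' : j < j' + 1 := by exact_mod_cast c3
    have c4' : j' < j + 1 := by exact_mod_cast c4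
    obtain rfl : i = i' := by omega
    obtain rfl : j = j' := by omega
    obtain rfl : X = X' := by linarith
    obtain rfl : Y = Y' := by linarith
    exact form_unique hr0 hr1 hr0' hr1' hf hf'

/-- The corners of the curve of level `r`. -/
noncomputable def cn (r : ℝ) (k : ℤ) : Plane := P r (ε k)

theorem path_eq (r : ℝ) (t : ℝ) : Polyline.path (cn r) t = W r (ε ⌊t⌋) (Int.fract t) := by
  rw [Polyline.path, cn, cn, ε_succ]
  rfl

theorem path_inj {r r' t t' : ℝ} (hr0 : 0 < r) (hr1 : r < 1) (hr0' : 0 < r') (hr1' : r' < 1)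
    (h : Polyline.path (cn r) t = Polyline.path (cn r') t') : r = r' ∧ t = t' := by
  rw [path_eq, path_eq] at h
  obtain ⟨h1, h2, h3⟩ := W_inj hr0 hr1 hr0' hr1' (Int.fract_nonneg t) (Int.fract_lt_one t)
    (Int.fract_nonneg t') (Int.fract_lt_one t') h
  refine ⟨h1, ?_⟩
  have h4 := ε_inj h2
  rw [← Int.floor_add_fract t, ← Int.floor_add_fract t', h4, h3]

theorem dist_P (r : ℝ) (hr0 : 0 < r) (hr1 : r < 1) (x : (ℤ × ℤ) × Fin 4) :
    dist (P r x) (P r (S x)) ≤ 2 := by
  have hle : dist (P r x) (P r (S x)) ^ 2 ≤ 2 ^ 2 := by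
    rw [dist_sq]
    obtain ⟨⟨a, b⟩, d⟩ := x
    have hd : d = 0 ∨ d = 1 ∨ d = 2 ∨ d = 3 := by
      fin_cases d <;> simp
    rcases hd with rfl | rfl | rfl | rfl
    · by_cases h : Open (a, b) 0
      · rw [S_open h]
        change ((P r ((a, b), 0)) 0 - (P r ((a + 1, b + 0), 3)) 0) ^ 2 +
          ((P r ((a, b), 0)) 1 - (P r ((a + 1, b + 0), 3)) 1) ^ 2 ≤ _
        simp [P]; nlinarith
      · rw [S_closed h]
        change ((P r ((a, b), 0)) 0 - (P r ((a, b), 1)) 0) ^ 2 +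
          ((P r ((a, b), 0)) 1 - (P r ((a, b), 1)) 1) ^ 2 ≤ _
        simp [P]; nlinarith
    · by_cases h : Open (a, b) 1
      · rw [S_open h]
        change ((P r ((a, b), 1)) 0 - (P r ((a + 0, b + 1), 0)) 0) ^ 2 +
          ((P r ((a, b), 1)) 1 - (P r ((a + 0, b + 1), 0)) 1) ^ 2 ≤ _
        simp [P]; nlinarith
      · rw [S_closed h]
        change ((P r ((a, b), 1)) 0 - (P r ((a, b), 2)) 0) ^ 2 +
          ((P r ((a, b), 1)) 1 - (P r ((a, b), 2)) 1) ^ 2 ≤ _
        simp [P]; nlinarith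
    · by_cases h : Open (a, b) 2
      · rw [S_open h]
        change ((P r ((a, b), 2)) 0 - (P r ((a + -1, b + 0), 1)) 0) ^ 2 +
          ((P r ((a, b), 2)) 1 - (P r ((a + -1, b + 0), 1)) 1) ^ 2 ≤ _
        simp [P]; nlinarith
      · rw [S_closed h]
        change ((P r ((a, b), 2)) 0 - (P r ((a, b), 3)) 0) ^ 2 +
          ((P r ((a, b), 2)) 1 - (P r ((a, b), 3)) 1) ^ 2 ≤ _
        simp [P]; nlinarith
    · by_cases h : Open (a, b) 3
      · rw [S_open h]
        change ((P r ((a, b), 3)) 0 - (P r ((a + 0, b + -1), 2)) 0) ^ 2 +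
          ((P r ((a, b), 3)) 1 - (P r ((a + 0, b + -1), 2)) 1) ^ 2 ≤ _
        simp [P]; nlinarith
      · rw [S_closed h]
        change ((P r ((a, b), 3)) 0 - (P r ((a, b), 0)) 0) ^ 2 +
          ((P r ((a, b), 3)) 1 - (P r ((a, b), 0)) 1) ^ 2 ≤ _
        simp [P]; nlinarith
  exact (pow_le_pow_iff_left₀ dist_nonneg (by norm_num) two_ne_zero).1 hle

theorem abs_coord_le (z : Plane) (i : Fin 2) : |z i| ≤ ‖z‖ := by
  have := PiLp.norm_apply_le z i
  simpa [Real.norm_eq_abs] using this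

theorem finite_cn (r : ℝ) (hr0 : 0 < r) (hr1 : r < 1) (R : ℝ) : {k : ℤ | ‖cn r k‖ ≤ R}.Finite := by
  have hA : {x : (ℤ × ℤ) × Fin 4 | ‖P r x‖ ≤ R}.Finite := by
    apply (((Set.finite_Icc (-(⌈R⌉ + 1)) (⌈R⌉ + 1)).prod
      (Set.finite_Icc (-(⌈R⌉ + 1)) (⌈R⌉ + 1))).prod (Set.finite_univ (α := Fin 4))).subset
    rintro ⟨⟨a, b⟩, d⟩ h
    have h' : ‖P r ((a, b), d)‖ ≤ R := h
    have h0 := (abs_coord_le _ 0).trans (h'.trans (Int.le_ceil R))
    have h1 := (abs_coord_le _ 1).trans (h'.trans (Int.le_ceil R))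
    rw [abs_le] at h0 h1
    obtain ⟨h2, h3⟩ := h0
    obtain ⟨h4, h5⟩ := h1
    have key : -((⌈R⌉ : ℝ) + 1) ≤ a ∧ (a : ℝ) ≤ ⌈R⌉ + 1 ∧ -((⌈R⌉ : ℝ) + 1) ≤ b ∧
        (b : ℝ) ≤ ⌈R⌉ + 1 := by
      fin_cases d <;> simp [P] at h2 h3 h4 h5 <;> refine ⟨?_, ?_, ?_, ?_⟩ <;> linarith
    obtain ⟨k1, k2, k3, k4⟩ := key
    refine ⟨⟨⟨?_, ?_⟩, ⟨?_, ?_⟩⟩, trivial⟩
    · exact_mod_cast k1
    · exact_mod_cast k2
    · exact_mod_cast k3
    · exact_mod_cast k4
  exact hA.preimage ε_inj.injOn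

/-- The curve of level `r`. -/
noncomputable def curve (r : ℝ) : Set Plane := Set.range (Polyline.path (cn r))

theorem isCurve_curve {r : ℝ} (hr0 : 0 < r) (hr1 : r < 1) : IsCurve (curve r) := by
  left
  refine ⟨Polyline.path (cn r), ?_, rfl⟩
  have h := Polyline.isClosedEmbedding_path (id : ℝ → ℝ) Topology.IsClosedEmbedding.id (cn r) 2
    (fun k => by rw [cn, cn, ε_succ]; exact dist_P r hr0 hr1 _) (finite_cn r hr0 hr1)
    (fun t t' h => (path_inj hr0 hr1 hr0 hr1 h).2)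
  exact h

theorem mem_curve (r : ℝ) (z : Plane) :
    z ∈ curve r ↔ ∃ (x : (ℤ × ℤ) × Fin 4) (τ : ℝ), 0 ≤ τ ∧ τ ≤ 1 ∧ z = W r x τ := by
  rw [curve, Polyline.range_path, Set.mem_iUnion]
  constructor
  · rintro ⟨k, τ, ⟨h0, h1⟩, rfl⟩
    refine ⟨ε k, τ, h0, h1, ?_⟩
    simp only [cn, ε_succ]
    rfl
  · rintro ⟨x, τ, h0, h1, rfl⟩
    obtain ⟨k, rfl⟩ := ε_surj x
    refine ⟨k, τ, ⟨h0, h1⟩, ?_⟩
    simp only [cn, ε_succ]
    rfl

/-! ### The marking -/

/-- The arc of level `r` around one of two opposite corners of the unit square. -/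
def arc (r : ℝ) (c : Bool) : Set Plane :=
  match c with
  | false => {z | z 0 + z 1 = r ∧ 0 ≤ z 0 ∧ 0 ≤ z 1}
  | true => {z | z 0 + z 1 = 2 - r ∧ z 0 ≤ 1 ∧ z 1 ≤ 1}

/-- The levels. -/
noncomputable def lev (n : ℕ) (k : Fin n) : ℝ := ((k : ℝ) + 1) / (n + 1)

theorem lev_pos {n : ℕ} (k : Fin n) : 0 < lev n k := by
  unfold lev
  positivity

theorem lev_lt {n : ℕ} (k : Fin n) : lev n k < 1 := by
  unfold lev
  have h : ((k : ℕ) : ℝ) + 1 ≤ n := by exact_mod_cast k.2
  rw [div_lt_one (by positivity)]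
  linarith

theorem lev_rev {n : ℕ} (k : Fin n) : lev n k.rev = 1 - lev n k := by
  unfold lev
  have h : (k : ℕ) + 1 ≤ n := k.2
  rw [Fin.val_rev, Nat.cast_sub h]
  push_cast
  field_simp
  ring

theorem lev_inj {n : ℕ} {k l : Fin n} (h : lev n k = lev n l) : k = l := by
  unfold lev at h
  have hn : (n : ℝ) + 1 ≠ 0 := by positivity
  have h2 : ((k : ℕ) : ℝ) + 1 = (l : ℕ) + 1 := by
    field_simp at h
    exact h
  have h3 : ((k : ℕ) : ℝ) = (l : ℕ) := by linarith
  exact Fin.ext (by exact_mod_cast h3)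

/-- The marking with `2 n` arcs. -/
def mark (n : ℕ) : Set (Set Plane) := Set.range fun q : Fin n × Bool => arc (lev n q.1) q.2

theorem isArc_arc {r : ℝ} (hr0 : 0 < r) (c : Bool) : IsArc (arc r c) := by
  cases c
  · have hc : Continuous fun t : Set.Icc (0 : ℝ) 1 => pt (r * t.1) (r - r * t.1) := by
      unfold pt
      fun_prop
    have hinj : Function.Injective fun t : Set.Icc (0 : ℝ) 1 => pt (r * t.1) (r - r * t.1) := by
      intro t s h
      have := congrArg (fun z : Plane => z 0) h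
      simp only [pt_zero] at this
      exact Subtype.ext (mul_left_cancel₀ hr0.ne' this)
    have he := hc.isClosedEmbedding hinj
    refine ⟨he.isEmbedding.toHomeomorph.trans (Homeomorph.setCongr ?_)⟩
    ext z
    constructor
    · rintro ⟨t, rfl⟩
      have h1 := t.2.1
      have h2 := t.2.2
      refine ⟨by simp, ?_, ?_⟩
      · rw [pt_zero]; positivity
      · rw [pt_one]; nlinarith
    · rintro ⟨h1, h2, h3⟩
      refine ⟨⟨z 0 / r, ?_, ?_⟩, ?_⟩
      · positivity
      · rw [div_le_one hr0]; linarith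
      · have e : r * (z 0 / r) = z 0 := by field_simp
        apply ext2
        · rw [pt_zero, e]
        · rw [pt_one, e]; linarith
  · have hc : Continuous fun t : Set.Icc (0 : ℝ) 1 => pt (1 - r * t.1) (1 - r + r * t.1) := by
      unfold pt
      fun_prop
    have hinj : Function.Injective fun t : Set.Icc (0 : ℝ) 1 =>
        pt (1 - r * t.1) (1 - r + r * t.1) := by
      intro t s h
      have := congrArg (fun z : Plane => z 0) h
      simp only [pt_zero] at this
      exact Subtype.ext (mul_left_cancel₀ hr0.ne' (by linarith))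
    have he := hc.isClosedEmbedding hinj
    refine ⟨he.isEmbedding.toHomeomorph.trans (Homeomorph.setCongr ?_)⟩
    ext z
    constructor
    · rintro ⟨t, rfl⟩
      have h1 := t.2.1
      have h2 := t.2.2
      have h3 : 0 ≤ r * t.1 := by positivity
      refine ⟨by simp; ring, ?_, ?_⟩
      · rw [pt_zero]; linarith
      · rw [pt_one]; nlinarith
    · rintro ⟨h1, h2, h3⟩
      refine ⟨⟨(1 - z 0) / r, ?_, ?_⟩, ?_⟩
      · exact div_nonneg (by linarith) hr0.le
      · rw [div_le_one hr0]; linarith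
      · have e : r * ((1 - z 0) / r) = 1 - z 0 := by field_simp
        apply ext2
        · simp only [pt_zero, e]; ring
        · simp only [pt_one, e]; linarith

theorem isMarking_mark (n : ℕ) : IsMarking (mark n) := by
  refine ⟨Set.finite_range _, ?_⟩
  rintro _ ⟨⟨k, c⟩, rfl⟩
  have h0 := lev_pos k
  have h1 := lev_lt k
  refine ⟨isArc_arc h0 c, ?_⟩
  cases c
  · rintro z ⟨e, h2, h3⟩
    refine ⟨?_, ?_, ?_, ?_⟩ <;> simp <;> linarith
  · rintro z ⟨e, h2, h3⟩
    refine ⟨?_, ?_, ?_, ?_⟩ <;> simp <;> linarith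

/-- A map preserving the distances, in coordinates. -/
noncomputable def mkIso (f g : Plane → Plane) (hfg : ∀ z, f (g z) = z)
    (h : ∀ z w, (f z 0 - f w 0) ^ 2 + (f z 1 - f w 1) ^ 2 = (z 0 - w 0) ^ 2 + (z 1 - w 1) ^ 2) :
    Plane ≃ᵢ Plane :=
  IsometryEquiv.mk' f g hfg (by
    apply Isometry.of_dist_eq
    intro z w
    apply (pow_left_inj₀ dist_nonneg dist_nonneg two_ne_zero).1
    rw [dist_sq, dist_sq, h])

/-- The tile `t` is flipped. -/
def Flip (t : ℤ × ℤ) : Prop :=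
  ∃ a b : ℤ, (t = (a - b, a + b) ∧ Open (a, b) 0) ∨ (t = (a - b - 1, a + b) ∧ ¬ Open (a, b) 1)

open Classical in
/-- The isometry of the tile `t`. -/
noncomputable def σ (t : ℤ × ℤ) : Plane ≃ᵢ Plane :=
  if Flip t then
    mkIso (fun z => pt (t.1 + (1 - z 0)) (t.2 + z 1)) (fun z => pt (1 - (z 0 - t.1)) (z 1 - t.2))
      (fun z => ext2 (by simp) (by simp)) (fun z w => by simp; ring)
  else
    mkIso (fun z => pt (t.1 + z 0) (t.2 + z 1)) (fun z => pt (z 0 - t.1) (z 1 - t.2))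
      (fun z => ext2 (by simp) (by simp)) (fun z w => by simp)

theorem σ_flip {t : ℤ × ℤ} (h : Flip t) (z : Plane) : σ t z = pt (t.1 + (1 - z 0)) (t.2 + z 1) := by
  rw [σ, if_pos h]; rfl

theorem σ_not_flip {t : ℤ × ℤ} (h : ¬ Flip t) (z : Plane) : σ t z = pt (t.1 + z 0) (t.2 + z 1) := by
  rw [σ, if_neg h]; rfl

theorem mem_σ_flip {t : ℤ × ℤ} (h : Flip t) (A : Set Plane) (X Y : ℝ) :
    pt (t.1 + X) (t.2 + Y) ∈ σ t '' A ↔ pt (1 - X) Y ∈ A := by
  constructor
  · rintro ⟨w, hw, e⟩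
    rw [σ_flip h] at e
    have e0 := congrArg (fun z : Plane => z 0) e
    have e1 := congrArg (fun z : Plane => z 1) e
    simp only [pt_zero, pt_one] at e0 e1
    have : w = pt (1 - X) Y := ext2 (by rw [pt_zero]; linarith) (by rw [pt_one]; linarith)
    rwa [← this]
  · intro hA
    refine ⟨_, hA, ?_⟩
    rw [σ_flip h]
    apply ext2 <;> simp

theorem mem_σ_not_flip {t : ℤ × ℤ} (h : ¬ Flip t) (A : Set Plane) (X Y : ℝ) :
    pt (t.1 + X) (t.2 + Y) ∈ σ t '' A ↔ pt X Y ∈ A := by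
  constructor
  · rintro ⟨w, hw, e⟩
    rw [σ_not_flip h] at e
    have e0 := congrArg (fun z : Plane => z 0) e
    have e1 := congrArg (fun z : Plane => z 1) e
    simp only [pt_zero, pt_one] at e0 e1
    have : w = pt X Y := ext2 (by rw [pt_zero]; linarith) (by rw [pt_one]; linarith)
    rwa [← this]
  · intro hA
    refine ⟨_, hA, ?_⟩
    rw [σ_not_flip h]
    apply ext2 <;> simp

theorem local_eq (t : ℤ × ℤ) (z : Plane) : z = pt (t.1 + (z 0 - t.1)) (t.2 + (z 1 - t.2)) := by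
  apply ext2 <;> simp

theorem σ_tile (t : ℤ × ℤ) : σ t '' tile (0, 0) = tile t := by
  ext z
  rw [local_eq t z]
  by_cases h : Flip t
  · rw [mem_σ_flip h]
    constructor
    · rintro ⟨h1, h2, h3, h4⟩
      simp at h1 h2 h3 h4
      refine ⟨?_, ?_, ?_, ?_⟩ <;> simp <;> linarith
    · rintro ⟨h1, h2, h3, h4⟩
      simp at h1 h2 h3 h4
      refine ⟨?_, ?_, ?_, ?_⟩ <;> simp <;> linarith
  · rw [mem_σ_not_flip h]
    constructor
    · rintro ⟨h1, h2, h3, h4⟩
      simp at h1 h2 h3 h4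
      refine ⟨?_, ?_, ?_, ?_⟩ <;> simp <;> linarith
    · rintro ⟨h1, h2, h3, h4⟩
      simp at h1 h2 h3 h4
      refine ⟨?_, ?_, ?_, ?_⟩ <;> simp <;> linarith

theorem flip_even (a b : ℤ) : Flip (a - b, a + b) ↔ Open (a, b) 0 := by
  constructor
  · rintro ⟨a', b', ⟨h, ho⟩ | ⟨h, ho⟩⟩
    · rw [Prod.mk.injEq] at h
      obtain rfl : a = a' := by omega
      obtain rfl : b = b' := by omega
      exact ho
    · rw [Prod.mk.injEq] at h
      omega
  · intro h
    exact ⟨a, b, Or.inl ⟨rfl, h⟩⟩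

theorem flip_odd (a b : ℤ) : Flip (a - b - 1, a + b) ↔ ¬ Open (a, b) 1 := by
  constructor
  · rintro ⟨a', b', ⟨h, ho⟩ | ⟨h, ho⟩⟩
    · rw [Prod.mk.injEq] at h
      omega
    · rw [Prod.mk.injEq] at h
      obtain rfl : a = a' := by omega
      obtain rfl : b = b' := by omega
      exact ho
  · intro h
    exact ⟨a, b, Or.inr ⟨rfl, h⟩⟩

/-- The curves lie in the carried arcs. -/
theorem curve_sub {n : ℕ} (k : Fin n) {z : Plane} (hz : z ∈ curve (lev n k)) :
    ∃ t, ∃ q : Fin n × Bool, z ∈ σ t '' arc (lev n q.1) q.2 := by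
  rw [mem_curve] at hz
  obtain ⟨x, τ, h0, h1, rfl⟩ := hz
  have hr0 := lev_pos k
  have hr1 := lev_lt k
  have hrev := lev_rev k
  generalize hr : lev n k = r at *
  have a0 : 0 ≤ r * τ := mul_nonneg hr0.le h0
  have a1 : r * τ ≤ r := by nlinarith
  have b0 : 0 ≤ (1 - r) * τ := mul_nonneg (by linarith) h0
  have b1 : (1 - r) * τ ≤ 1 - r := by nlinarith
  obtain ⟨i, j, X, Y, hf⟩ := form_exists r τ x
  rw [W_form hf]
  refine ⟨(i, j), ?_⟩
  obtain ⟨a, b, h⟩ := hf
  rcases h with ⟨rfl, rfl, ho, -, rfl, rfl⟩ | ⟨rfl, rfl, ho, -, rfl, rfl⟩ |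
    ⟨rfl, rfl, ho, -, rfl, rfl⟩ | ⟨rfl, rfl, ho, -, rfl, rfl⟩ | ⟨rfl, rfl, ho, -, rfl, rfl⟩ |
    ⟨rfl, rfl, ho, -, rfl, rfl⟩ | ⟨rfl, rfl, ho, -, rfl, rfl⟩ | ⟨rfl, rfl, ho, -, rfl, rfl⟩
  · refine ⟨(k, false), (mem_σ_not_flip (fun h => ho ((flip_even a b).1 h)) _ _ _).2 ?_⟩
    rw [hr]
    refine ⟨?_, ?_, ?_⟩ <;> simp <;> linarith
  · refine ⟨(k, true), (mem_σ_not_flip (fun h => ho ((flip_even a b).1 h)) _ _ _).2 ?_⟩
    rw [hr]
    refine ⟨?_, ?_, ?_⟩ <;> simp <;> linarith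
  · refine ⟨(k.rev, false), (mem_σ_flip ((flip_even a b).2 ho) _ _ _).2 ?_⟩
    rw [hrev]
    refine ⟨?_, ?_, ?_⟩ <;> simp <;> linarith
  · refine ⟨(k.rev, true), (mem_σ_flip ((flip_even a b).2 ho) _ _ _).2 ?_⟩
    rw [hrev]
    refine ⟨?_, ?_, ?_⟩ <;> simp <;> linarith
  · refine ⟨(k, false), (mem_σ_flip ((flip_odd a b).2 ho) _ _ _).2 ?_⟩
    rw [hr]
    refine ⟨?_, ?_, ?_⟩ <;> simp <;> linarith
  · refine ⟨(k, true), (mem_σ_flip ((flip_odd a b).2 ho) _ _ _).2 ?_⟩
    rw [hr]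
    refine ⟨?_, ?_, ?_⟩ <;> simp <;> linarith
  · refine ⟨(k.rev, true), (mem_σ_not_flip (fun h => (flip_odd a b).1 h ho) _ _ _).2 ?_⟩
    rw [hrev]
    refine ⟨?_, ?_, ?_⟩ <;> simp <;> linarith
  · refine ⟨(k.rev, false), (mem_σ_not_flip (fun h => (flip_odd a b).1 h ho) _ _ _).2 ?_⟩
    rw [hrev]
    refine ⟨?_, ?_, ?_⟩ <;> simp <;> linarith

theorem tile_cases (t : ℤ × ℤ) : ∃ a b : ℤ, t = (a - b, a + b) ∨ t = (a - b - 1, a + b) := by
  obtain ⟨i, j⟩ := t
  rcases Int.even_or_odd (i + j) with ⟨m, hm⟩ | ⟨m, hm⟩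
  · exact ⟨m, j - m, Or.inl (by rw [Prod.mk.injEq]; omega)⟩
  · exact ⟨m + 1, j - m - 1, Or.inr (by rw [Prod.mk.injEq]; omega)⟩

/-- The carried arcs lie on the curves. -/
theorem sub_curve {n : ℕ} (t : ℤ × ℤ) (k : Fin n) (c : Bool) {z : Plane}
    (hz : z ∈ σ t '' arc (lev n k) c) : ∃ l : Fin n, z ∈ curve (lev n l) := by
  have hr0 := lev_pos k
  have hr1 := lev_lt k
  have hrev := lev_rev k
  have hne : lev n k ≠ 0 := hr0.ne'
  generalize hr : lev n k = r at *
  have fin : ∀ (l : Fin n) (ρ τ : ℝ) (x : (ℤ × ℤ) × Fin 4) (i j : ℤ) (X Y : ℝ), lev n l = ρ →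
      0 ≤ τ → τ ≤ 1 → Form ρ τ x i j X Y → ∃ l : Fin n, pt (i + X) (j + Y) ∈ curve (lev n l) := by
    intro l ρ τ x i j X Y hl h0 h1 hf
    refine ⟨l, ?_⟩
    rw [hl, mem_curve]
    exact ⟨x, τ, h0, h1, (W_form hf).symm⟩
  have hdiv : ∀ y : ℝ, r * (y / r) = y := fun y => by field_simp
  rw [local_eq t z] at hz ⊢
  generalize z 0 - (t.1 : ℝ) = X at *
  generalize z 1 - (t.2 : ℝ) = Y at *
  obtain ⟨a, b, rfl | rfl⟩ := tile_cases t
  · by_cases ho : Open (a, b) 0
    · rw [mem_σ_flip ((flip_even a b).2 ho)] at hz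
      have e1 : 1 - (1 - r) = r := by ring
      cases c
      · obtain ⟨h1, h2, h3⟩ := hz
        rw [pt_zero, pt_one] at h1
        rw [pt_zero] at h2
        rw [pt_one] at h3
        refine fin k.rev (1 - r) (Y / r) ((a, b), 0) _ _ _ _ hrev (by positivity)
          ((div_le_one hr0).2 (by linarith)) ⟨a, b, Or.inr (Or.inr (Or.inl
          ⟨rfl, rfl, ho, rfl, ?_, ?_⟩))⟩
        · rw [e1, hdiv]; linarith
        · rw [e1, hdiv]
      · obtain ⟨h1, h2, h3⟩ := hz
        rw [pt_zero, pt_one] at h1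
        rw [pt_zero] at h2
        rw [pt_one] at h3
        refine fin k.rev (1 - r) ((1 - Y) / r) ((a + 1, b), 2) _ _ _ _ hrev
          (div_nonneg (by linarith) hr0.le)
          ((div_le_one hr0).2 (by linarith)) ⟨a, b, Or.inr (Or.inr (Or.inr (Or.inl
          ⟨rfl, rfl, ho, rfl, ?_, ?_⟩)))⟩
        · rw [e1, hdiv]; linarith
        · rw [e1, hdiv]; linarith
    · rw [mem_σ_not_flip (fun h => ho ((flip_even a b).1 h))] at hz
      cases c
      · obtain ⟨h1, h2, h3⟩ := hz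
        rw [pt_zero, pt_one] at h1
        rw [pt_zero] at h2
        rw [pt_one] at h3
        refine fin k r (Y / r) ((a, b), 0) _ _ _ _ hr (by positivity)
          ((div_le_one hr0).2 (by linarith)) ⟨a, b, Or.inl
          ⟨rfl, rfl, ho, rfl, ?_, ?_⟩⟩
        · rw [hdiv]; linarith
        · rw [hdiv]
      · obtain ⟨h1, h2, h3⟩ := hz
        rw [pt_zero, pt_one] at h1
        rw [pt_zero] at h2
        rw [pt_one] at h3
        refine fin k r ((1 - Y) / r) ((a + 1, b), 2) _ _ _ _ hr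
          (div_nonneg (by linarith) hr0.le)
          ((div_le_one hr0).2 (by linarith)) ⟨a, b, Or.inr (Or.inl
          ⟨rfl, rfl, ho, rfl, ?_, ?_⟩)⟩
        · rw [hdiv]; linarith
        · rw [hdiv]; linarith
  · by_cases ho : Open (a, b) 1
    · rw [mem_σ_not_flip (fun h => (flip_odd a b).1 h ho)] at hz
      have e1 : 1 - (1 - r) = r := by ring
      cases c
      · obtain ⟨h1, h2, h3⟩ := hz
        rw [pt_zero, pt_one] at h1
        rw [pt_zero] at h2
        rw [pt_one] at h3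
        refine fin k.rev (1 - r) (X / r) ((a, b + 1), 3) _ _ _ _ hrev (by positivity)
          ((div_le_one hr0).2 (by linarith)) ⟨a, b, Or.inr (Or.inr (Or.inr (Or.inr (Or.inr
          (Or.inr (Or.inr ⟨rfl, rfl, ho, rfl, ?_, ?_⟩))))))⟩
        · rw [e1, hdiv]
        · rw [e1, hdiv]; linarith
      · obtain ⟨h1, h2, h3⟩ := hz
        rw [pt_zero, pt_one] at h1
        rw [pt_zero] at h2
        rw [pt_one] at h3
        refine fin k.rev (1 - r) ((1 - X) / r) ((a, b), 1) _ _ _ _ hrev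
          (div_nonneg (by linarith) hr0.le)
          ((div_le_one hr0).2 (by linarith)) ⟨a, b, Or.inr (Or.inr (Or.inr (Or.inr (Or.inr
          (Or.inr (Or.inl ⟨rfl, rfl, ho, rfl, ?_, ?_⟩))))))⟩
        · rw [e1, hdiv]; linarith
        · rw [e1, hdiv]; linarith
    · rw [mem_σ_flip ((flip_odd a b).2 ho)] at hz
      cases c
      · obtain ⟨h1, h2, h3⟩ := hz
        rw [pt_zero, pt_one] at h1
        rw [pt_zero] at h2
        rw [pt_one] at h3
        refine fin k r ((1 - X) / r) ((a, b), 1) _ _ _ _ hr (div_nonneg (by linarith) hr0.le)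
          ((div_le_one hr0).2 (by linarith)) ⟨a, b, Or.inr (Or.inr (Or.inr (Or.inr (Or.inl
          ⟨rfl, rfl, ho, rfl, ?_, ?_⟩))))⟩
        · rw [hdiv]; linarith
        · rw [hdiv]; linarith
      · obtain ⟨h1, h2, h3⟩ := hz
        rw [pt_zero, pt_one] at h1
        rw [pt_zero] at h2
        rw [pt_one] at h3
        refine fin k r (X / r) ((a, b + 1), 3) _ _ _ _ hr
          (div_nonneg (by linarith) hr0.le)
          ((div_le_one hr0).2 (by linarith)) ⟨a, b, Or.inr (Or.inr (Or.inr (Or.inr (Or.inr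
          (Or.inl ⟨rfl, rfl, ho, rfl, ?_, ?_⟩)))))⟩
        · rw [hdiv]
        · rw [hdiv]; linarith

theorem armed (n : ℕ) : IsArmedSpiral n (mark n) σ := by
  refine ⟨σ_tile, fun k => curve (lev n k), fun k => isCurve_curve (lev_pos k) (lev_lt k), ?_, ?_⟩
  · intro k l hkl
    rw [Set.disjoint_left]
    rintro z ⟨t, ht⟩ ⟨s, hs⟩
    have h := path_inj (lev_pos k) (lev_lt k) (lev_pos l) (lev_lt l) (ht.trans hs.symm)
    exact hkl (lev_inj h.1)
  · ext z
    simp only [Set.mem_iUnion]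
    constructor
    · rintro ⟨k, hz⟩
      obtain ⟨t, q, h⟩ := curve_sub k hz
      exact ⟨t, _, ⟨q, rfl⟩, h⟩
    · rintro ⟨t, _, ⟨⟨k, c⟩, rfl⟩, h⟩
      exact sub_curve t k c h

/-- The square tiling admits a marking making it an `n`-armed spiral exactly for all positive
integers `n`. -/
theorem result : {n : ℕ | 0 < n ∧ ∃ (M : Set (Set Plane)) (σ : ℤ × ℤ → (Plane ≃ᵢ Plane)),
    IsMarking M ∧ IsArmedSpiral n M σ} = {n : ℕ | 0 < n} := by
  ext n
  constructor
  · rintro ⟨h, -⟩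
    exact h
  · intro h
    exact ⟨h, mark n, σ, isMarking_mark n, armed n⟩

end Pool.Agent.Results.MP_ca213f_co.AllArms
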